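import Pool.Agent.Q215.SR.Stm

/-! # Project SR (helper215), job transfer: sequences on a Polish space from the Baire space -/

set_option autoImplicit false

open Set Topology Filter Ordinal

namespace Pool.Agent.Q210.SR

open Pool.Agent.Q215.SR

theorem count_Iio {η : Ordinal.{0}} (h : η < ω_ 1) : (Set.Iio η).Countable := by
  rw [← Cardinal.le_aleph0_iff_set_countable, Cardinal.mk_Iio_ordinal, Cardinal.lift_le_aleph0]
  have h1 : η.card < Cardinal.aleph 1 := by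
    rw [← Cardinal.lt_ord, Cardinal.ord_aleph]
    exact h
  rwa [← Cardinal.succ_aleph0, Order.lt_succ_iff] at h1

section fibre

variable {X : Type} [TopologicalSpace X] [PolishSpace X] {π : (ℕ → ℕ) → X}

/-- a comeager subset of a fibre is not empty -/
theorem fibre_nonempty (hπ : Continuous π) (hs : Function.Surjective π) (x : X)
    {S : Set (π ⁻¹' {x} : Set (ℕ → ℕ))} (hS : S ∈ residual (π ⁻¹' {x} : Set (ℕ → ℕ))) :
    S.Nonempty := by
  have hcl : IsClosed (π ⁻¹' {x} : Set (ℕ → ℕ)) := isClosed_singleton.preimage hπ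
  have hP : PolishSpace (π ⁻¹' {x} : Set (ℕ → ℕ)) := hcl.polishSpace
  have hB : BaireSpace (π ⁻¹' {x} : Set (ℕ → ℕ)) := by
    let _ := TopologicalSpace.upgradeIsCompletelyMetrizable (π ⁻¹' {x} : Set (ℕ → ℕ))
    infer_instance
  obtain ⟨y, hy⟩ := hs x
  have hne : Nonempty (π ⁻¹' {x} : Set (ℕ → ℕ)) := ⟨⟨y, hy⟩⟩
  exact (dense_of_mem_residual hS).nonempty

omit [TopologicalSpace X] [PolishSpace X] in
theorem mem_Vt {S : Set (ℕ → ℕ)} {x : X} : x ∈ Vt π Set.univ S ↔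
    {y : (π ⁻¹' {x} : Set (ℕ → ℕ)) | (y : ℕ → ℕ) ∈ S} ∈ residual (π ⁻¹' {x} : Set (ℕ → ℕ)) := by
  unfold Vt
  rw [Set.mem_ofPred_eq]
  have e : {y : (π ⁻¹' {x} : Set (ℕ → ℕ)) | (y : ℕ → ℕ) ∈ (Set.univ : Set (ℕ → ℕ)) → (y : ℕ → ℕ) ∈ S} =
      {y : (π ⁻¹' {x} : Set (ℕ → ℕ)) | (y : ℕ → ℕ) ∈ S} := by
    ext y
    exact ⟨fun h => h (mem_univ _), fun h _ => h⟩
  rw [e]

omit [TopologicalSpace X] [PolishSpace X] in
theorem Vt_mono {S T : Set (ℕ → ℕ)} (h : S ⊆ T) : Vt π Set.univ S ⊆ Vt π Set.univ T := by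
  intro x hx
  rw [mem_Vt] at hx ⊢
  exact Filter.mem_of_superset hx fun y hy => h hy

omit [TopologicalSpace X] [PolishSpace X] in
/-- if `S` is comeager in the fibre and `T` is not then `S` is not contained in `T` -/
theorem exists_diff {S T : Set (ℕ → ℕ)} {x : X} (h1 : x ∈ Vt π Set.univ S) (h2 : x ∉ Vt π Set.univ T) :
    ∃ y, π y = x ∧ y ∈ S ∧ y ∉ T := by
  by_contra hcon
  push Not at hcon
  apply h2
  rw [mem_Vt] at h1 ⊢
  exact Filter.mem_of_superset h1 fun y hy => hcon y y.2 hy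

omit [TopologicalSpace X] [PolishSpace X] in
theorem mem_biInter {η : Ordinal.{0}} (h : η < ω_ 1) {F : Ordinal.{0} → Set (ℕ → ℕ)} {x : X}
    (hx : ∀ θ < η, x ∈ Vt π Set.univ (F θ)) :
    {y : (π ⁻¹' {x} : Set (ℕ → ℕ)) | ∀ θ < η, (y : ℕ → ℕ) ∈ F θ} ∈
      residual (π ⁻¹' {x} : Set (ℕ → ℕ)) := by
  have h1 := (countable_bInter_mem (l := residual (π ⁻¹' {x} : Set (ℕ → ℕ))) (count_Iio h)
    (s := fun θ _ => {y : (π ⁻¹' {x} : Set (ℕ → ℕ)) | (y : ℕ → ℕ) ∈ F θ})).2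
      fun θ hθ => mem_Vt.1 (hx θ hθ)
  refine Filter.mem_of_superset h1 fun y hy θ hθ => ?_
  exact Set.mem_iInter₂.1 hy θ hθ

end fibre

/-- **Job transfer.** -/
theorem t_transfer : S_transfer := by
  intro hV X _ _ π hπ hs ho ξ lam hlam hlim P F hF A B hA hB
  set G : Ordinal.{0} → Set X := fun η => Vt π Set.univ (F η) with hG
  have hGanti : ∀ η θ, η ≤ θ → G θ ⊆ G η := fun η θ h => Vt_mono (hF.anti η θ h)
  have hG0 : G 0 = Set.univ := by
    rw [Set.eq_univ_iff_forall]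
    intro x
    show x ∈ Vt π Set.univ (F 0)
    rw [mem_Vt, hF.zero]
    exact Filter.mem_of_superset Filter.univ_mem fun y _ => mem_univ _
  have hGcont : ∀ η, η < lam → Order.IsSuccLimit η → G η = ⋂ θ ∈ Set.Iio η, G θ := by
    intro η hη hl
    refine Subset.antisymm (fun x hx => ?_) fun x hx => ?_
    · exact Set.mem_iInter₂.2 fun θ hθ => hGanti θ η (le_of_lt hθ) hx
    · have hx' : ∀ θ < η, x ∈ Vt π Set.univ (F θ) := fun θ hθ => Set.mem_iInter₂.1 hx θ hθ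
      show x ∈ Vt π Set.univ (F η)
      rw [mem_Vt, hF.cont η hη hl]
      refine Filter.mem_of_superset (mem_biInter (hη.trans hlam) hx') fun y hy => ?_
      exact Set.mem_iInter₂.2 fun θ hθ => hy θ hθ
  have hpre : Pre ξ G lam := by
    refine ⟨fun η hη => ?_, hGanti, hG0, hGcont⟩
    exact hV X π hπ hs ho ξ (F η) Set.univ isOpen_univ (hF.cls η hη)
  -- the stage at which a point leaves is unique
  have huniq : ∀ (y : ℕ → ℕ) (η η' : Ordinal.{0}), y ∈ F η → y ∉ F (η + 1) → y ∈ F η' →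
      y ∉ F (η' + 1) → η' = η := by
    intro y η η' h1 h2 h3 h4
    rcases lt_trichotomy η' η with h | h | h
    · exact absurd (hF.anti (η' + 1) η (Order.add_one_le_of_lt h) h1) h4
    · exact h
    · exact absurd (hF.anti (η + 1) η' (Order.add_one_le_of_lt h) h3) h2
  refine ⟨G, hpre, ?_, ?_⟩
  · intro x hx
    have hfib : ∀ y, π y = x → y ∈ Lv P F lam := fun y hy => hA (by rw [Set.mem_preimage, hy]; exact hx)
    have hex : ∃ θ, θ < lam ∧ x ∉ G θ := by
      by_contra hcon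
      push Not at hcon
      obtain ⟨y, hy⟩ := fibre_nonempty hπ hs x (mem_biInter hlam (F := F) hcon)
      obtain ⟨η, h1, -, -, h4⟩ := hfib y y.2
      exact h4 (hy (η + 1) (hlim.add_one_lt h1))
    obtain ⟨θ, ⟨hθ, hxθ⟩, hmin⟩ := WellFounded.has_min (wellFounded_lt (α := Ordinal.{0}))
      {θ | θ < lam ∧ x ∉ G θ} hex
    have hmin' : ∀ η < θ, x ∈ G η := by
      intro η hη
      by_contra hcon
      exact hmin η ⟨hη.trans hθ, hcon⟩ hη
    rcases zero_or_succ_or_isSuccLimit θ with h | ⟨η, h⟩ | h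
    · rw [h, hG0] at hxθ
      exact absurd (mem_univ x) hxθ
    · have hηθ : η < θ := by
        rw [← h]
        exact Order.lt_succ η
      have hxη := hmin' η hηθ
      have hxs : x ∉ G (η + 1) := by
        rw [← Order.succ_eq_add_one, h]
        exact hxθ
      obtain ⟨y, hy, hy1, hy2⟩ := exists_diff hxη hxs
      obtain ⟨η', h1, h2, h3, h4⟩ := hfib y hy
      have h5 := huniq y η η' hy1 hy2 h3 h4
      rw [h5] at h2
      exact ⟨η, hηθ.trans hθ, h2, hxη, hxs⟩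
    · refine absurd ?_ hxθ
      rw [hGcont θ hθ h]
      exact Set.mem_iInter₂.2 fun η hη => hmin' η hη
  · rw [Set.eq_empty_iff_forall_notMem]
    rintro x ⟨⟨η, h1, h2, h3, h4⟩, hxB⟩
    obtain ⟨y, hy, hy1, hy2⟩ := exists_diff h3 h4
    have h5 : y ∈ Lv P F lam ∩ π ⁻¹' B := by
      refine ⟨⟨η, h1, h2, hy1, hy2⟩, ?_⟩
      rw [Set.mem_preimage, hy]
      exact hxB
    rw [hB] at h5
    exact h5

end Pool.Agent.Q210.SR
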