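import Pool.Agent.Q215.SR.Stm
import Pool.Agent.Q203.BD.Main

/-! # Project SR (helper215), job wadge: the separation game -/

set_option autoImplicit false

open Set Topology

namespace Pool.Agent.Q210.SR

open Q203.BD Pool.Agent.Q215.SR

/-- the histories of the play with the moves given by `f` -/
def hh (f : ℕ → List ℕ → ℕ) : ℕ → List ℕ
  | 0 => []
  | n + 1 => f n (hh f n) :: hh f n

/-- the play with the moves given by `f` -/
def pl (f : ℕ → List ℕ → ℕ) (n : ℕ) : ℕ := f n (hh f n)

theorem hist_pl (f : ℕ → List ℕ → ℕ) (n : ℕ) : hist (pl f) n = hh f n := by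
  induction n with
  | zero => rfl
  | succ n ih => rw [hist_succ, ih]; rfl

theorem pl_eq (f : ℕ → List ℕ → ℕ) (n : ℕ) : pl f n = f n (hist (pl f) n) := by
  rw [hist_pl]
  rfl

theorem hh_congr {f g : ℕ → List ℕ → ℕ} {n : ℕ} (h : ∀ m < n, f m = g m) : hh f n = hh g n := by
  induction n with
  | zero => rfl
  | succ n ih =>
    have h1 := ih fun m hm => h m (by omega)
    show f n (hh f n) :: hh f n = g n (hh g n) :: hh g n
    rw [h1, h n (by omega)]

theorem pl_congr {f g : ℕ → List ℕ → ℕ} {n : ℕ} (h : ∀ m ≤ n, f m = g m) : pl f n = pl g n := by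
  show f n (hh f n) = g n (hh g n)
  rw [hh_congr fun m hm => h m hm.le, h n le_rfl]

/-- a function of finitely many coordinates is continuous -/
theorem cont_fin {Y Z : Type} [TopologicalSpace Y] [DiscreteTopology Y] [TopologicalSpace Z]
    [Nonempty Y] (F : (ℕ → Y) → Z) (n : ℕ) (hF : ∀ z z' : ℕ → Y, (∀ k < n, z k = z' k) → F z = F z') :
    Continuous F := by
  classical
  obtain ⟨y0⟩ := ‹Nonempty Y›
  have h1 : F = (fun v : Fin n → Y => F fun k => if h : k < n then v ⟨k, h⟩ else y0) ∘
      fun z i => z (i : ℕ) := by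
    funext z
    refine hF _ _ fun k hk => ?_
    simp only [dif_pos hk]
  rw [h1]
  refine Continuous.comp continuous_of_discreteTopology ?_
  exact continuous_pi fun i => continuous_apply _

/-- the bits played by the first player -/
def zz (w : ℕ → ℕ) (n : ℕ) : Bool := decide (w (2 * n) = 0)

/-- the numbers played by the second player -/
def xx (w : ℕ → ℕ) (n : ℕ) : ℕ := w (2 * n + 1)

theorem zz_cont : Continuous zz := by
  refine continuous_pi fun n => ?_
  exact (continuous_of_discreteTopology (f := fun m : ℕ => decide (m = 0))).comp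
    (continuous_apply (2 * n))

theorem xx_cont : Continuous xx := continuous_pi fun n => continuous_apply (2 * n + 1)

/-- code of a bit -/
def cd (b : Bool) : ℕ := if b then 0 else 1

theorem cd_dec (b : Bool) : decide (cd b = 0) = b := by
  cases b <;> rfl

/-- **Job wadge.** -/
theorem t_wadge : S_wadge := by
  intro A B C hA hB hC
  set Pay : Set (ℕ → ℕ) := {w | ¬ ((zz w ∈ C ∧ xx w ∈ A) ∨ (zz w ∉ C ∧ xx w ∈ B))} with hPay
  have hPm : MeasurableSet Pay := by
    have h1 : MeasurableSet (zz ⁻¹' C) := zz_cont.measurable hC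
    have h2 : MeasurableSet (xx ⁻¹' A) := xx_cont.measurable hA
    have h3 : MeasurableSet (xx ⁻¹' B) := xx_cont.measurable hB
    exact ((h1.inter h2).union (h1.compl.inter h3)).compl
  have hPb : @MeasurableSet (ℕ → ℕ) (borel (ℕ → ℕ)) Pay := by
    rw [← BorelSpace.measurable_eq]
    exact hPm
  rcases borel_determinacy hPb with ⟨σ, hσ⟩ | ⟨τ, hτ⟩
  · right
    let f : (ℕ → ℕ) → ℕ → List ℕ → ℕ := fun x m l => if m % 2 = 0 then σ l else x (m / 2)
    refine ⟨fun x n => decide (pl (f x) (2 * n) = 0), ?_, ?_, ?_⟩
    · refine continuous_pi fun n => ?_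
      refine cont_fin _ n fun z z' h => ?_
      have h1 : pl (f z) (2 * n) = pl (f z') (2 * n) := by
        refine pl_congr fun m hm => ?_
        funext l
        show (if m % 2 = 0 then σ l else z (m / 2)) = if m % 2 = 0 then σ l else z' (m / 2)
        split_ifs with hm2
        · rfl
        · exact h _ (by omega)
      simp only [h1]
    · intro x hx
      have h1 := hσ (pl (f x)) fun n hn => by
        rw [pl_eq]
        show (if n % 2 = 0 then _ else _) = _
        rw [if_pos (Nat.even_iff.1 hn)]
      have hxx : xx (pl (f x)) = x := by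
        funext n
        show pl (f x) (2 * n + 1) = x n
        rw [pl_eq]
        show (if (2 * n + 1) % 2 = 0 then _ else x ((2 * n + 1) / 2)) = _
        rw [if_neg (by omega), show (2 * n + 1) / 2 = n by omega]
      intro hC'
      have hz : zz (pl (f x)) ∈ C := hC'
      refine h1 (Or.inl ⟨hz, ?_⟩)
      rw [hxx]
      exact hx
    · intro x hx
      have h1 := hσ (pl (f x)) fun n hn => by
        rw [pl_eq]
        show (if n % 2 = 0 then _ else _) = _
        rw [if_pos (Nat.even_iff.1 hn)]
      have hxx : xx (pl (f x)) = x := by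
        funext n
        show pl (f x) (2 * n + 1) = x n
        rw [pl_eq]
        show (if (2 * n + 1) % 2 = 0 then _ else x ((2 * n + 1) / 2)) = _
        rw [if_neg (by omega), show (2 * n + 1) / 2 = n by omega]
      by_contra hC'
      have hz : zz (pl (f x)) ∉ C := hC'
      refine h1 (Or.inr ⟨hz, ?_⟩)
      rw [hxx]
      exact hx
  · left
    let f : (ℕ → Bool) → ℕ → List ℕ → ℕ := fun z m l => if m % 2 = 0 then cd (z (m / 2)) else τ l
    have hzz : ∀ z, zz (pl (f z)) = z := by
      intro z
      funext n
      show decide (pl (f z) (2 * n) = 0) = z n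
      rw [pl_eq]
      show decide ((if (2 * n) % 2 = 0 then cd (z (2 * n / 2)) else _) = 0) = _
      rw [if_pos (by omega), show 2 * n / 2 = n by omega, cd_dec]
    have key : ∀ z, ¬ pl (f z) ∈ Pay := fun z => hτ (pl (f z)) fun n hn => by
      rw [pl_eq]
      show (if n % 2 = 0 then _ else _) = _
      rw [if_neg (fun h => hn (Nat.even_iff.2 h))]
    have key2 : ∀ z, (z ∈ C ∧ xx (pl (f z)) ∈ A) ∨ (z ∉ C ∧ xx (pl (f z)) ∈ B) := by
      intro z
      have h1 := key z
      rw [hPay, Set.mem_ofPred_eq, not_not, hzz z] at h1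
      exact h1
    refine ⟨fun z => xx (pl (f z)), ?_, ?_, ?_⟩
    · refine continuous_pi fun n => ?_
      refine cont_fin _ (n + 1) fun z z' h => ?_
      show pl (f z) (2 * n + 1) = pl (f z') (2 * n + 1)
      refine pl_congr fun m hm => ?_
      funext l
      show (if m % 2 = 0 then cd (z (m / 2)) else τ l) = if m % 2 = 0 then cd (z' (m / 2)) else τ l
      split_ifs with hm2
      · rw [h _ (by omega)]
      · rfl
    · intro z hz
      rcases key2 z with h | h
      · exact h.2
      · exact absurd hz h.1
    · intro z hz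
      rcases key2 z with h | h
      · exact absurd h.1 hz
      · exact h.2

end Pool.Agent.Q210.SR
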